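import Pool.Agent.Lib.MP_3240be_co.L45.Far
import Pool.Agent.Lib.MP_3240be_co.P57.Pone

/-!
# MP_3240be_co, T4 (findings 4835, 4844, 4872), row R5: the (E2) leaf

A graph with a kernel and cells, embedded into the blue gadget with complexes but not into one
blob, has a smaller part in a far blob.
-/

set_option autoImplicit false

namespace MP3240L45

open Finset Function
open MP3240R
open MP3240C (CxB)
open MP3240CO (XG Near)
open MP3240X (VQ cq bz)
open Pool.Agent.Lib.MP_3240be_co.H36.Chrom (Sparse)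

/-- `Pi` has at most two elements, or one of the edges of the star `Pi` is not an edge between the
corresponding vertices of `N`. -/
def Few {V : Type} {n : ℕ} (H : SimpleGraph (Fin n)) (M : SimpleGraph V) (N : Finset V)
    (pos : V → Fin n) (Pi : Finset (Fin n)) : Prop :=
  Pi.card ≤ 2 ∨ ∃ c ∈ Pi, ∃ l ∈ Pi, H.Adj c l ∧ (∀ x ∈ Pi, x = c ∨ H.Adj c x) ∧
    ∀ u ∈ N, ∀ v ∈ N, pos u = c → pos v = l → ¬ M.Adj u v

/-- The field `few` of `Leaf`. -/
theorem few_of {V : Type} {n : ℕ} {H : SimpleGraph (Fin n)} {M : SimpleGraph V} {N : Finset V}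
    {pos : V → Fin n} {Pi : Finset (Fin n)} (h3 : Pi.card ≤ 3) (h : Few H M N pos Pi) :
    {x : Fin n | x ∈ Pi ∧ ∃ v ∈ N, pos v = x}.ncard ≤ 2 ∨
      ∃ u ∈ N, ∃ v ∈ N, H.Adj (pos u) (pos v) ∧ ¬ M.Adj u v := by
  classical
  have key : ∀ Pi' : Finset (Fin n), Pi'.card ≤ 2 →
      (∀ x, (x ∈ Pi ∧ ∃ v ∈ N, pos v = x) → x ∈ Pi') →
      {x : Fin n | x ∈ Pi ∧ ∃ v ∈ N, pos v = x}.ncard ≤ 2 := by
    intro Pi' hc hsub
    have h1 : {x : Fin n | x ∈ Pi ∧ ∃ v ∈ N, pos v = x} ⊆ (Pi' : Set (Fin n)) :=
      fun x hx => hsub x hx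
    have h2 := Set.ncard_le_ncard h1 (Finset.finite_toSet _)
    rw [Set.ncard_coe_finset] at h2
    omega
  rcases h with h | ⟨c, hc, l, hl, hcl, -, hno⟩
  · exact Or.inl (key Pi h fun x hx => hx.1)
  · by_cases h1 : ∃ u ∈ N, pos u = c
    · by_cases h2 : ∃ v ∈ N, pos v = l
      · obtain ⟨u, hu, huc⟩ := h1
        obtain ⟨v, hv, hvl⟩ := h2
        exact Or.inr ⟨u, hu, v, hv, by rw [huc, hvl]; exact hcl, hno u hu v hv huc hvl⟩
      · refine Or.inl (key (Pi.erase l) ?_ ?_)
        · rw [card_erase_of_mem hl]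
          omega
        · rintro x ⟨hx, v, hv, hvx⟩
          refine mem_erase.2 ⟨?_, hx⟩
          rintro rfl
          exact h2 ⟨v, hv, hvx⟩
    · refine Or.inl (key (Pi.erase c) ?_ ?_)
      · rw [card_erase_of_mem hc]
        omega
      · rintro x ⟨hx, v, hv, hvx⟩
        refine mem_erase.2 ⟨?_, hx⟩
        rintro rfl
        exact h1 ⟨v, hv, hvx⟩

section
variable {n s p : ℕ} {H : SimpleGraph (Fin n)} {Bl J C V : Type}
  {xs ys : Fin s → Fin n} {ty : Bl → Fin s → H.Dart} {io : Bl → Fin s → J}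
  {R : C → C → Prop} {A : C → Prop}

/-- The neighbours of a slot. -/
theorem nb_slot {b : Bl} {w : Fin n} {x : VQ H s Bl J C}
    (h : cq xs ys ty io R A (.b b w) x) :
    InBlob ty io b x ∨ ∃ j c, x = .g j (io b j) (ty b) w c := by
  rcases x with ⟨b', w'⟩ | ⟨j, i, v⟩ | ⟨j, i, φ, w', c⟩
  · obtain ⟨rfl, -⟩ : b = b' ∧ H.Adj w w' := h
    exact Or.inl (Or.inl ⟨w', rfl⟩)
  · obtain ⟨rfl, h⟩ : bz xs ys ty io b w j i v := h
    left
    right
    refine ⟨j, ?_⟩
    rcases h with ⟨rfl, -⟩ | ⟨rfl, -⟩
    · exact Or.inl rfl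
    · exact Or.inr rfl
  · obtain ⟨rfl, rfl, rfl, -⟩ : io b j = i ∧ ty b = φ ∧ w = w' ∧ A c := h
    exact Or.inr ⟨j, c, rfl⟩

/-- The neighbours of a passenger. -/
theorem nb_pas {j : Fin s} {i : J} {v : Fin n} {x : VQ H s Bl J C}
    (h : cq xs ys ty io R A (.z j i v) x) :
    ∃ b w, x = .b b w ∧ io b j = i ∧ ((v = (ty b j).fst ∧ H.Adj w (xs j)) ∨
      (v = (ty b j).snd ∧ H.Adj w (ys j))) := by
  rcases x with ⟨b', w'⟩ | ⟨j', i', v'⟩ | ⟨j', i', φ, w', c⟩
  · exact ⟨b', w', rfl, h⟩
  · exact (h : False).elim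
  · exact (h : False).elim

/-- The neighbours of a complex vertex. -/
theorem nb_cx {j : Fin s} {i : J} {φ : Fin s → H.Dart} {w : Fin n} {c : C} {x : VQ H s Bl J C}
    (h : cq xs ys ty io R A (.g j i φ w c) x) :
    (∃ b, x = .b b w ∧ io b j = i ∧ ty b = φ) ∨ ∃ c', x = .g j i φ w c' := by
  rcases x with ⟨b', w'⟩ | ⟨j', i', v'⟩ | ⟨j', i', φ', w', c'⟩
  · obtain ⟨h1, h2, rfl, -⟩ : io b' j = i ∧ ty b' = φ ∧ w' = w ∧ A c := h
    exact Or.inl ⟨b', rfl, h1, h2⟩
  · exact (h : False).elim
  · obtain ⟨⟨rfl, rfl, rfl, rfl⟩, -⟩ :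
      (j = j' ∧ i = i' ∧ φ = φ' ∧ w = w') ∧ R c c' := h
    exact Or.inr ⟨c', rfl⟩

theorem cq_symm (hR : ∀ a b, R a b → R b a) {x y : VQ H s Bl J C}
    (h : cq xs ys ty io R A x y) : cq xs ys ty io R A y x := by
  rcases x with ⟨b, w⟩ | ⟨j, i, v⟩ | ⟨j, i, φ, w, c⟩ <;>
    rcases y with ⟨b', w'⟩ | ⟨j', i', v'⟩ | ⟨j', i', φ', w', c'⟩
  · exact ⟨h.1.symm, h.2.symm⟩
  · exact h
  · exact h
  · exact h
  · exact h
  · exact h
  · exact h
  · exact h
  · obtain ⟨⟨h1, h2, h3, h4⟩, h5⟩ :
      (j = j' ∧ i = i' ∧ φ = φ' ∧ w = w') ∧ R c c' := h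
    exact ⟨⟨h1.symm, h2.symm, h3.symm, h4.symm⟩, hR _ _ h5⟩

theorem inBlob_g {b : Bl} {j : Fin s} {i : J} {φ : Fin s → H.Dart} {w : Fin n} {c : C}
    (h : InBlob ty io b (.g j i φ w c)) : False := by
  rcases h with ⟨w', h⟩ | ⟨j', h | h⟩ <;> cases h

theorem inBlob_b {b b' : Bl} {w : Fin n} (h : InBlob (C := C) ty io b (.b b' w)) : b' = b := by
  rcases h with ⟨w', h⟩ | ⟨j', h | h⟩ <;> cases h
  rfl

theorem inBlob_z {b : Bl} {j : Fin s} {i : J} {v : Fin n}
    (h : InBlob (C := C) ty io b (.z j i v)) :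
    i = io b j ∧ (v = (ty b j).fst ∨ v = (ty b j).snd) := by
  rcases h with ⟨w', h⟩ | ⟨j', h | h⟩ <;> cases h
  · exact ⟨rfl, Or.inl rfl⟩
  · exact ⟨rfl, Or.inr rfl⟩

/-- A passenger in the blob is at a root position. -/
theorem posB_root {b : Bl} {j : Fin s} {i : J} {v : Fin n}
    (h : InBlob (C := C) ty io b (.z j i v)) :
    posB (C := C) xs ys ty b (.z j i v) = xs j ∨ posB (C := C) xs ys ty b (.z j i v) = ys j := by
  obtain ⟨rfl, rfl | rfl⟩ := inBlob_z h
  · exact Or.inl (posB_fst xs ys ty b j _)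
  · exact Or.inr (posB_snd xs ys ty b j _)

/-- The final step for a far blob. -/
theorem fin_leaf [Fintype V] {M : SimpleGraph V} {K : Finset V} {z : V}
    {AA : Set (Finset V)} {F : V → VQ H s Bl J C} (hF : Is2 H p M xs ys ty io R A F)
    (hcb : ∀ A' ∈ AA, ∃ b, ∀ u ∈ A', InBlob ty io b (F u))
    {b : Bl} (hb : ∃ A' ∈ AA, ∀ u ∈ A', InBlob ty io b (F u))
    (hnot : ¬ ∃ b, ∀ u, InBlob ty io b (F u))
    {j0 : Fin s} {w0 : Fin n} (hw0 : Near H xs ys j0 w0)
    (hdir : ∀ A' ∈ AA, ∀ b', (∀ u ∈ A', InBlob ty io b' (F u)) → b' ≠ b →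
      ∀ j, io b' j = io b j → j = j0)
    (h1 : ∀ v ∈ K, InBlob ty io b (F v) → (∃ x, F v = .z j0 (io b j0) x) ∨ F v = .b b w0)
    (h2 : ∀ v u, InBlob ty io b (F v) → ¬ InBlob ty io b (F u) → M.Adj v u →
      (∃ x, F v = .z j0 (io b j0) x) ∨ F v = .b b w0)
    (h3 : ¬ InBlob ty io b (F z) → ∀ a w, InBlob ty io b (F a) → InBlob ty io b (F w) → a ≠ w →
      M.Adj z a → M.Adj z w → (∃ x, F a = .z j0 (io b j0) x) ∧ ∃ x, F w = .z j0 (io b j0) x) :
    ∃ (N : Finset V) (pos : V → Fin n) (Pi : Finset (Fin n)), N ≠ univ ∧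
      Leaf H M K z AA N pos Pi ∧ Few H M N pos Pi := by
  classical
  have hmem : ∀ v, v ∈ univ.filter (fun u => InBlob ty io b (F u)) ↔ InBlob ty io b (F v) := by
    intro v
    rw [mem_filter]
    exact and_iff_right (mem_univ v)
  have hPi : ∀ v, InBlob ty io b (F v) →
      ((∃ x, F v = .z j0 (io b j0) x) ∨ F v = .b b w0) →
      posB xs ys ty b (F v) ∈ ({xs j0, ys j0, w0} : Finset (Fin n)) := by
    rintro v hv (⟨x, hx⟩ | hx)
    · rw [hx] at hv ⊢
      rcases posB_root (xs := xs) (ys := ys) hv with h | h <;> rw [h] <;> simp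
    · rw [hx]
      simp [posB]
  have hcen : ∃ c ∈ ({xs j0, ys j0, w0} : Finset (Fin n)),
      ∃ l ∈ ({xs j0, ys j0, w0} : Finset (Fin n)), H.Adj c l ∧
      (∀ x ∈ ({xs j0, ys j0, w0} : Finset (Fin n)), x = c ∨ H.Adj c x) ∧
      (c = xs j0 ∧ l = ys j0 ∨ c = ys j0 ∧ l = xs j0) := by
    have hxy := hF.xg.adj j0
    rcases hw0 with h | h
    · refine ⟨xs j0, by simp, ys j0, by simp, hxy, ?_, Or.inl ⟨rfl, rfl⟩⟩
      intro x hx
      simp only [mem_insert, mem_singleton] at hx
      rcases hx with rfl | rfl | rfl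
      · exact Or.inl rfl
      · exact Or.inr hxy
      · exact Or.inr h.symm
    · refine ⟨ys j0, by simp, xs j0, by simp, hxy.symm, ?_, Or.inr ⟨rfl, rfl⟩⟩
      intro x hx
      simp only [mem_insert, mem_singleton] at hx
      rcases hx with rfl | rfl | rfl
      · exact Or.inr hxy.symm
      · exact Or.inl rfl
      · exact Or.inr h.symm
  have hfew : Few H M (univ.filter (fun u => InBlob ty io b (F u)))
      (fun u => posB xs ys ty b (F u)) {xs j0, ys j0, w0} := by
    right
    obtain ⟨c, hc, l, hl, hcl, hst, hroot⟩ := hcen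
    refine ⟨c, hc, l, hl, hcl, hst, ?_⟩
    intro u hu v hv hpu hpv huv
    rw [hmem] at hu hv
    have hsl : ∀ y, InBlob ty io b (F y) → (posB xs ys ty b (F y) = xs j0 ∨
        posB xs ys ty b (F y) = ys j0) → ∃ j i x, F y = .z j i x := by
      intro y hy hp
      rcases hy with ⟨w, hw⟩ | ⟨j, hj | hj⟩
      · exfalso
        have := hF.inn y b w hw j0
        rw [hw] at hp
        rcases hp with hp | hp
        · exact this.1 hp
        · exact this.2 hp
      · exact ⟨_, _, _, hj⟩
      · exact ⟨_, _, _, hj⟩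
    have hcl' : (c = xs j0 ∨ c = ys j0) ∧ (l = xs j0 ∨ l = ys j0) := by
      rcases hroot with ⟨h, h'⟩ | ⟨h, h'⟩
      · exact ⟨Or.inl h, Or.inr h'⟩
      · exact ⟨Or.inr h, Or.inl h'⟩
    obtain ⟨j1, i1, x1, h1'⟩ := hsl u hu (by
      change posB xs ys ty b (F u) = c at hpu
      rw [hpu]
      exact hcl'.1)
    obtain ⟨j2, i2, x2, h2'⟩ := hsl v hv (by
      change posB xs ys ty b (F v) = l at hpv
      rw [hpv]
      exact hcl'.2)
    have := hF.adj u v huv
    rw [h1', h2'] at this
    exact this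
  refine ⟨univ.filter (fun u => InBlob ty io b (F u)), fun u => posB xs ys ty b (F u),
    {xs j0, ys j0, w0}, ?_, ?_, hfew⟩
  · intro h
    apply hnot
    refine ⟨b, fun u => ?_⟩
    rw [← hmem, h]
    exact mem_univ u
  · refine ⟨?_, ?_, ?_, ?_, ?_, ?_, ?_, ?_, few_of card_le_three hfew⟩
    · intro u hu v hv huv
      rw [hmem] at hu hv
      exact hF.inj (posB_inj hF.xg hu hv (hF.inn u) (hF.inn v) huv)
    · intro u hu v hv huv
      rw [hmem] at hu hv
      exact posB_adj hu hv (hF.adj u v huv)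
    · refine ⟨card_le_three, ?_⟩
      obtain ⟨c, hc, -, -, -, h, -⟩ := hcen
      exact ⟨c, hc, h⟩
    · intro v hv hvK
      rw [hmem] at hv
      exact hPi v hv (h1 v hvK hv)
    · intro v hv u hu huv
      rw [hmem] at hv hu
      exact hPi v hv (h2 v u hv hu huv)
    · intro v hv A' hA' hvA' hsub
      rw [hmem] at hv
      obtain ⟨b', hb'⟩ := hcb A' hA'
      have hne : b' ≠ b := by
        rintro rfl
        apply hsub
        intro u hu
        rw [hmem]
        exact hb' u hu
      obtain ⟨j, x, hx, hj⟩ := InBlob.two hne.symm hv (hb' v hvA')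
      have := hdir A' hA' b' hb' hne j hj.symm
      subst this
      exact hPi v hv (Or.inl ⟨x, hx⟩)
    · obtain ⟨A', hA', h⟩ := hb
      refine ⟨A', hA', ?_⟩
      intro u hu
      rw [hmem]
      exact h u hu
    · intro hz a ha w hw haw hza hzw
      rw [hmem] at hz ha hw
      obtain ⟨⟨x, hx⟩, ⟨y, hy⟩⟩ := h3 hz a w ha hw haw hza hzw
      have hxy : x ≠ y := by
        rintro rfl
        exact haw (hF.inj (hx.trans hy.symm))
      change H.Adj (posB xs ys ty b (F a)) (posB xs ys ty b (F w))
      rw [hx] at ha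
      rw [hy] at hw
      rw [hx, hy]
      rcases (inBlob_z ha).2 with h | h <;> rcases (inBlob_z hw).2 with h' | h'
      · exact absurd (h.trans h'.symm) hxy
      · rw [h, h', posB_fst, posB_snd]
        exact hF.xg.adj j0
      · rw [h, h', posB_fst, posB_snd]
        exact (hF.xg.adj j0).symm
      · exact absurd (h.trans h'.symm) hxy

/-- The final step, with the conditions on the kernel. -/
theorem far_leaf [Fintype V] {M : SimpleGraph V} {K : Finset V} {z : V}
    {AA : Set (Finset V)} {F : V → VQ H s Bl J C} (hF : Is2 H p M xs ys ty io R A F)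
    (hcov : ∀ v, v ∉ K → ∃ A' ∈ AA, v ∈ A')
    (hcb : ∀ A' ∈ AA, ∃ b, ∀ u ∈ A', InBlob ty io b (F u))
    (hU : (Us F).card + 1 ≤ n * n)
    {b : Bl} (hb : ∃ A' ∈ AA, ∀ u ∈ A', InBlob ty io b (F u))
    (hnot : ¬ ∃ b, ∀ u, InBlob ty io b (F u))
    {ζ : Fin s × J} {j0 : Fin s} (hj0 : Rr io (Us F) b ζ (j0, io b j0))
    (hfar : ∀ b', (∃ A' ∈ AA, ∀ u ∈ A', InBlob ty io b' (F u)) → b' ≠ b →
      ∀ j, Rr io (Us F) b ζ (j, io b' j))
    {w0 : Fin n} (hw0 : Near H xs ys j0 w0)
    (hK : ∀ u ∈ K, ∀ b' w', F u = .b b' w' → b' ≠ b → io b' ζ.1 = ζ.2)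
    (hG : ∀ u ∈ K, ∀ j c w, F u = .g j (io b j) (ty b) w c → w = w0)
    (h1 : ∀ v ∈ K, InBlob ty io b (F v) → (∃ x, F v = .z j0 (io b j0) x) ∨ F v = .b b w0)
    (h3 : ¬ InBlob ty io b (F z) → ∀ a w, InBlob ty io b (F a) → InBlob ty io b (F w) → a ≠ w →
      M.Adj z a → M.Adj z w → (∃ x, F a = .z j0 (io b j0) x) ∧ ∃ x, F w = .z j0 (io b j0) x) :
    ∃ (N : Finset V) (pos : V → Fin n) (Pi : Finset (Fin n)), N ≠ univ ∧
      Leaf H M K z AA N pos Pi ∧ Few H M N pos Pi := by
  have hdir : ∀ A' ∈ AA, ∀ b', (∀ u ∈ A', InBlob ty io b' (F u)) → b' ≠ b →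
      ∀ j, io b' j = io b j → j = j0 := by
    intro A' hA' b' hb' hne j hj
    have h := hfar b' ⟨A', hA', hb'⟩ hne j
    rw [hj] at h
    exact uniq_dir hF.ioi hF.sp hU h hj0
  refine fin_leaf hF hcb hb hnot hw0 hdir h1 ?_ h3
  intro v u hv hu hvu
  have hadj := hF.adj v u hvu
  rcases hv with ⟨w, hw⟩ | ⟨j, hj⟩
  · rw [hw] at hadj
    rcases nb_slot hadj with h | ⟨j, c, h⟩
    · exact absurd h hu
    · right
      have huK : u ∈ K := by
        by_contra huK
        obtain ⟨A', hA', huA⟩ := hcov u huK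
        obtain ⟨b', hb'⟩ := hcb A' hA'
        have := hb' u huA
        rw [h] at this
        exact inBlob_g this
      rw [hw, hG u huK j c w h]
  · left
    have hx : ∃ x, F v = .z j (io b j) x := by
      rcases hj with hj | hj
      · exact ⟨_, hj⟩
      · exact ⟨_, hj⟩
    obtain ⟨x, hx⟩ := hx
    rw [hx] at hadj
    obtain ⟨b', w', hw', hio, -⟩ := nb_pas hadj
    have hne : b' ≠ b := by
      rintro rfl
      exact hu (Or.inl ⟨w', hw'⟩)
    have hjj : j = j0 := by
      by_cases huK : u ∈ K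
      · have h := hK u huK b' w' hw' hne
        have h2 : Rr io (Us F) b ζ (j, io b' j) :=
          Relation.ReflTransGen.single ⟨b', mem_Us hw', hne, h, rfl⟩
        rw [hio] at h2
        exact uniq_dir hF.ioi hF.sp hU h2 hj0
      · obtain ⟨A', hA', huA⟩ := hcov u huK
        obtain ⟨b'', hb''⟩ := hcb A' hA'
        have h := hb'' u huA
        rw [hw'] at h
        have hbb := inBlob_b h
        subst hbb
        exact hdir A' hA' _ hb'' hne j hio
    subst hjj
    exact ⟨x, hx⟩

end

/-- Row R5, with the additional property `Few`. -/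
theorem leafE2 {n p : ℕ} {H : SimpleGraph (Fin n)} {V : Type} [Fintype V]
    {M : SimpleGraph V} {K : Finset V} {z : V} {AA : Set (Finset V)}
    (hC : Cells H p M K z AA) (hcard : Fintype.card V ≤ n) {s : ℕ} {xs ys : Fin s → Fin n}
    {Bl J C : Type} {ty : Bl → Fin s → H.Dart} {io : Bl → Fin s → J} {R : C → C → Prop}
    {A : C → Prop} {F : V → VQ H s Bl J C} (hF : Is2 H p M xs ys ty io R A F)
    (hnot : ¬ ∃ b, ∀ u, InBlob ty io b (F u)) :
    ∃ (N : Finset V) (pos : V → Fin n) (Pi : Finset (Fin n)), N ≠ univ ∧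
      Leaf H M K z AA N pos Pi ∧ Few H M N pos Pi := by
  classical
  -- the cells
  have hcell : ∀ A' ∈ AA, ∃ b, (∀ u ∈ A', InBlob ty io b (F u)) ∧
      (∃ u ∈ A', ∃ w, F u = .b b w) ∧ 2 ≤ n := by
    intro A' hA'
    have hr := hC.rig A' hA'
    obtain ⟨b, hb⟩ := hr.e2 s xs ys Bl J C ty io R A (fun u => F u.1)
      (hF.comp Subtype.val_injective (fun _ _ h => h))
    have hb' : ∀ u ∈ A', InBlob ty io b (F u) := fun u hu => hb ⟨u, hu⟩
    have hed : ∃ x ∈ A', ∃ y ∈ A', M.Adj x y := by
      by_contra hcon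
      push Not at hcon
      refine hr.ncol ⟨SimpleGraph.Coloring.mk (fun _ => 0) ?_⟩
      intro x y hxy
      exact absurd hxy (hcon x.1 x.2 y.1 y.2)
    obtain ⟨x, hx, y, hy, hxy⟩ := hed
    refine ⟨b, hb', ?_, ?_⟩
    · have h := hF.adj x y hxy
      rcases hb' x hx with ⟨w, hw⟩ | ⟨j, hj⟩
      · exact ⟨x, hx, w, hw⟩
      · rcases hb' y hy with ⟨w, hw⟩ | ⟨j', hj'⟩
        · exact ⟨y, hy, w, hw⟩
        · exfalso
          rcases hj with hj | hj <;> rcases hj' with hj' | hj' <;> rw [hj, hj'] at h <;> exact h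
    · have h := posB_adj (hb' x hx) (hb' y hy) (hF.adj x y hxy)
      have h1 := h.ne
      have h2 := (posB xs ys ty b (F x)).isLt
      have h3 := (posB xs ys ty b (F y)).isLt
      by_contra hn
      apply h1
      apply Fin.ext
      omega
  have hcb : ∀ A' ∈ AA, ∃ b, ∀ u ∈ A', InBlob ty io b (F u) := by
    intro A' hA'
    obtain ⟨b, hb, -⟩ := hcell A' hA'
    exact ⟨b, hb⟩
  obtain ⟨A0, hA0⟩ := hC.ne
  have hn2 : 2 ≤ n := by
    obtain ⟨b, -, -, h⟩ := hcell A0 hA0
    exact h
  have hU : (Us F).card + 1 ≤ n * n := by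
    have h := card_Us F
    nlinarith
  set CB : Bl → Prop := fun b => ∃ A' ∈ AA, ∀ u ∈ A', InBlob ty io b (F u) with hCBdef
  have hCB : ∀ b, CB b → ∃ u w, F u = .b b w := by
    rintro b ⟨A', hA', hb⟩
    obtain ⟨b', -, ⟨u, hu, w, hw⟩, -⟩ := hcell A' hA'
    have h := hb u hu
    rw [hw] at h
    have := inBlob_b h
    subst this
    exact ⟨u, w, hw⟩
  have hcovb : ∀ v, v ∉ K → ∃ b, CB b ∧ InBlob ty io b (F v) := by
    intro v hv
    obtain ⟨A', hA', hvA⟩ := hC.cov v hv
    obtain ⟨b, hb⟩ := hcb A' hA'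
    exact ⟨b, ⟨A', hA', hb⟩, hb v hvA⟩
  obtain ⟨b0, hb0⟩ : ∃ b, CB b := by
    obtain ⟨b, hb⟩ := hcb A0 hA0
    exact ⟨b, A0, hA0, hb⟩
  have hout : ∀ b, ∃ u, ¬ InBlob ty io b (F u) := by
    intro b
    by_contra hcon
    push Not at hcon
    exact hnot ⟨b, hcon⟩
  rcases hFz : F z with ⟨bz, wz⟩ | ⟨jz, iz, vz⟩ | ⟨jz, iz, φ, wz, cz⟩
  · -- the centre is a slot
    have hnz : ∀ u ∈ K, u ≠ z → InBlob ty io bz (F u) ∨
        ∃ j c, F u = .g j (io bz j) (ty bz) wz c := by
      intro u hu hne
      have h := hF.adj z u ((hC.star u hu).resolve_left hne)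
      rw [hFz] at h
      exact nb_slot h
    by_cases hone : ∃ b, CB b ∧ b ≠ bz
    · -- another blob contains a cell
      obtain ⟨j1⟩ : Nonempty (Fin s) := by
        obtain ⟨y, hy⟩ := hout bz
        obtain ⟨u, v, hu, hv, huv⟩ := conn_exit hC.con (fun v => InBlob ty io bz (F v))
          (x := z) (y := y) (by rw [hFz]; exact Or.inl ⟨wz, rfl⟩) hy
        rcases hu with ⟨w, hw⟩ | ⟨j, -⟩
        · have h := hF.adj u v huv
          rw [hw] at h
          rcases nb_slot h with h | ⟨j, -⟩
          · exact absurd h hv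
          · exact ⟨j⟩
        · exact ⟨j⟩
      obtain ⟨b, hb, hbz, ⟨j0, hj0⟩, hfar⟩ := far hC.con hF.adj (ρ := z) (ζ := (j1, io bz j1))
        (by rw [hFz]; exact rfl) CB hCB (by
          obtain ⟨b, hb, hne⟩ := hone
          refine ⟨b, hb, fun w hw => hne ?_⟩
          rw [hFz] at hw
          injection hw with h1 h2
          exact h1.symm)
      have hne : bz ≠ b := fun h => hbz wz (by rw [hFz, h])
      have hvia : ∀ j, io bz j = io b j → j = j0 := by
        intro j hj
        have h2 : Rr io (Us F) b (j1, io bz j1) (j, io bz j) :=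
          Relation.ReflTransGen.single ⟨bz, mem_Us hFz, hne, rfl, rfl⟩
        rw [hj] at h2
        exact uniq_dir hF.ioi hF.sp hU h2 hj0
      have hzN : ¬ InBlob ty io b (F z) := by
        rw [hFz]
        intro h
        exact hne (inBlob_b h)
      have hnN : ∀ v, InBlob ty io b (F v) → M.Adj z v → ∃ x, F v = .z j0 (io b j0) x := by
        intro v hv hzv
        have h := hF.adj z v hzv
        rw [hFz] at h
        rcases nb_slot h with h | ⟨j, c, h⟩
        · obtain ⟨j, x, hx, hj⟩ := InBlob.two hne.symm hv h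
          have := hvia j hj.symm
          subst this
          exact ⟨x, hx⟩
        · rw [h] at hv
          exact (inBlob_g hv).elim
      obtain ⟨w0, hw0, hG⟩ : ∃ w0, Near H xs ys j0 w0 ∧
          ∀ u ∈ K, ∀ j c w, F u = .g j (io b j) (ty b) w c → w = w0 := by
        by_cases hg : ∃ u ∈ K, ∃ j c w, F u = .g j (io b j) (ty b) w c
        · have key : ∀ u ∈ K, ∀ j c w, F u = .g j (io b j) (ty b) w c →
              w = wz ∧ j = j0 := by
            intro u hu j c w h
            have hne' : u ≠ z := by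
              rintro rfl
              rw [hFz] at h
              cases h
            rcases hnz u hu hne' with h' | ⟨j', c', h'⟩
            · rw [h] at h'
              exact (inBlob_g h').elim
            · rw [h] at h'
              injection h' with e1 e2 e3 e4 e5
              subst e1
              exact ⟨e4, hvia j e2.symm⟩
          obtain ⟨u, hu, j, c, w, h⟩ := hg
          obtain ⟨rfl, rfl⟩ := key u hu j c w h
          exact ⟨w, hF.near u _ _ _ _ _ h, fun u hu j c w h => (key u hu j c w h).1⟩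
        · refine ⟨xs j0, Or.inr (hF.xg.adj j0), ?_⟩
          intro u hu j c w h
          exact absurd ⟨u, hu, j, c, w, h⟩ hg
      refine far_leaf hF hC.cov hcb hU hb hnot hj0 hfar hw0 ?_ hG ?_ ?_
      · intro u hu b' w' hw' hne'
        have hbb : b' = bz := by
          by_cases huz : u = z
          · subst huz
            rw [hFz] at hw'
            injection hw' with h1 h2
            exact h1.symm
          · rcases hnz u hu huz with h | ⟨j, c, h⟩
            · rw [hw'] at h
              exact inBlob_b h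
            · rw [hw'] at h
              cases h
        rw [hbb]
      · intro v hv hvN
        left
        have hvz : v ≠ z := by
          rintro rfl
          exact hzN hvN
        exact hnN v hvN ((hC.star v hv).resolve_left hvz)
      · intro _ a w ha hw haw hza hzw
        exact ⟨hnN a ha hza, hnN w hw hzw⟩
    · -- only the blob of the centre contains cells
      push Not at hone
      have hbz : CB bz := by
        have := hone b0 hb0
        rwa [this] at hb0
      have hmem : ∀ v, v ∈ univ.filter (fun u => InBlob ty io bz (F u)) ↔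
          InBlob ty io bz (F v) := by
        intro v
        rw [mem_filter]
        exact and_iff_right (mem_univ v)
      have hinK : ∀ v, ¬ InBlob ty io bz (F v) → v ∈ K := by
        intro v hv
        by_contra hvK
        obtain ⟨b, hb, hvb⟩ := hcovb v hvK
        rw [hone b hb] at hvb
        exact hv hvb
      have hzN : InBlob ty io bz (F z) := by
        rw [hFz]
        exact Or.inl ⟨wz, rfl⟩
      have hc2 : ((K.filter (fun u => InBlob ty io bz (F u))).image
          (fun u => posB xs ys ty bz (F u))).card ≤ 2 := by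
        obtain ⟨u, hu⟩ := hout bz
        have h1 : K.filter (fun u => InBlob ty io bz (F u)) ⊂ K := by
          refine (filter_ssubset).2 ⟨u, hinK u hu, hu⟩
        have h2 := card_lt_card h1
        have h3 := hC.card
        have h4 : ((K.filter (fun u => InBlob ty io bz (F u))).image
          (fun u => posB xs ys ty bz (F u))).card ≤ _ := card_image_le
        omega
      refine ⟨univ.filter (fun u => InBlob ty io bz (F u)), fun u => posB xs ys ty bz (F u),
        (K.filter (fun u => InBlob ty io bz (F u))).image (fun u => posB xs ys ty bz (F u)),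
        ?_, ?_, Or.inl hc2⟩
      · intro h
        obtain ⟨u, hu⟩ := hout bz
        apply hu
        rw [← hmem, h]
        exact mem_univ u
      · refine ⟨?_, ?_, ?_, ?_, ?_, ?_, ?_, ?_, few_of (hc2.trans (by norm_num)) (Or.inl hc2)⟩
        · intro u hu v hv huv
          rw [hmem] at hu hv
          exact hF.inj (posB_inj hF.xg hu hv (hF.inn u) (hF.inn v) huv)
        · intro u hu v hv huv
          rw [hmem] at hu hv
          exact posB_adj hu hv (hF.adj u v huv)
        · refine ⟨?_, posB xs ys ty bz (F z), ?_, ?_⟩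
          · exact card_image_le.trans ((card_le_card (filter_subset _ _)).trans hC.card)
          · exact mem_image.2 ⟨z, mem_filter.2 ⟨hC.zK, hzN⟩, rfl⟩
          · intro x hx
            obtain ⟨u, hu, rfl⟩ := mem_image.1 hx
            obtain ⟨huK, huN⟩ := mem_filter.1 hu
            rcases hC.star u huK with h | h
            · left
              rw [h]
            · exact Or.inr (posB_adj hzN huN (hF.adj z u h))
        · intro v hv hvK
          rw [hmem] at hv
          exact mem_image.2 ⟨v, mem_filter.2 ⟨hvK, hv⟩, rfl⟩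
        · intro v hv u hu hvu
          rw [hmem] at hv hu
          have huK := hinK u hu
          have huz : u ≠ z := by
            rintro rfl
            exact hu hzN
          rcases hnz u huK huz with h | ⟨j, c, h⟩
          · exact absurd h hu
          · have h2 := cq_symm hF.sym (hF.adj v u hvu)
            rw [h] at h2
            have hvz : F v = F z := by
              rcases nb_cx h2 with ⟨b', h3, h4, h5⟩ | ⟨c', h3⟩
              · rw [h3] at hv
                have := inBlob_b hv
                subst this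
                rw [h3, hFz]
              · rw [h3] at hv
                exact (inBlob_g hv).elim
            exact mem_image.2 ⟨v, mem_filter.2 ⟨by rw [hF.inj hvz]; exact hC.zK, hv⟩, rfl⟩
        · intro v hv A' hA' hvA' hsub
          exfalso
          apply hsub
          intro u hu
          rw [hmem]
          obtain ⟨b', hb'⟩ := hcb A' hA'
          have := hone b' ⟨A', hA', hb'⟩
          subst this
          exact hb' u hu
        · obtain ⟨A', hA', h⟩ := hbz
          refine ⟨A', hA', ?_⟩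
          intro u hu
          rw [hmem]
          exact h u hu
        · intro hz
          rw [hmem] at hz
          exact absurd hzN hz
  · -- the centre is a passenger
    have hnz : ∀ u ∈ K, u ≠ z → ∃ b w, F u = .b b w ∧ io b jz = iz ∧
        InBlob ty io b (F z) ∧ Near H xs ys jz w := by
      intro u hu hne
      have h := hF.adj z u ((hC.star u hu).resolve_left hne)
      rw [hFz] at h
      obtain ⟨b, w, h1, h2, h3⟩ := nb_pas h
      refine ⟨b, w, h1, h2, ?_, ?_⟩
      · rw [hFz]
        right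
        refine ⟨jz, ?_⟩
        rcases h3 with ⟨h3, -⟩ | ⟨h3, -⟩
        · left
          rw [h2, h3]
        · right
          rw [h2, h3]
      · rcases h3 with ⟨-, h3⟩ | ⟨-, h3⟩
        · exact Or.inl h3
        · exact Or.inr h3
    have hGv : ∀ b w0, ∀ u ∈ K, ∀ j c w, F u = .g j (io b j) (ty b) w c → w = w0 := by
      intro b w0 u hu j c w h
      exfalso
      by_cases huz : u = z
      · subst huz
        rw [hFz] at h
        cases h
      · obtain ⟨b', w', h', -⟩ := hnz u hu huz
        rw [h] at h'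
        cases h'
    have hKv : ∀ b, ∀ u ∈ K, ∀ b' w', F u = .b b' w' → b' ≠ b →
        io b' (jz, iz).1 = (jz, iz).2 := by
      intro b u hu b' w' hw' _
      by_cases huz : u = z
      · subst huz
        rw [hFz] at hw'
        cases hw'
      · obtain ⟨b'', w'', h', h2, -⟩ := hnz u hu huz
        rw [hw'] at h'
        injection h' with e1 e2
        subst e1
        exact h2
    have h3v : ∀ b, ∀ j0 : Fin s, ¬ InBlob ty io b (F z) → ∀ a w, InBlob ty io b (F a) →
        InBlob ty io b (F w) → a ≠ w → M.Adj z a → M.Adj z w →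
        (∃ x, F a = .z j0 (io b j0) x) ∧ ∃ x, F w = .z j0 (io b j0) x := by
      intro b j0 hz a w ha hw haw hza hzw
      exfalso
      apply hz
      have h := hF.adj z a hza
      rw [hFz] at h
      obtain ⟨b', w', h1, h2, h3⟩ := nb_pas h
      rw [h1] at ha
      have := inBlob_b ha
      subst this
      rw [hFz]
      right
      refine ⟨jz, ?_⟩
      rcases h3 with ⟨h3, -⟩ | ⟨h3, -⟩
      · left
        rw [h2, h3]
      · right
        rw [h2, h3]
    obtain ⟨b1, hb1, hb1z, ⟨j1, hj1⟩, hfar1⟩ := far hC.con hF.adj (ρ := z) (ζ := (jz, iz))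
      (by rw [hFz]; exact rfl) CB hCB ⟨b0, hb0, fun w hw => by rw [hFz] at hw; cases hw⟩
    by_cases htwo : ∃ u ∈ K, ∃ v ∈ K, u ≠ v ∧ (∃ w, F u = .b b1 w) ∧ ∃ w, F v = .b b1 w
    · -- the kernel lies in the blob `b1`
      obtain ⟨u, huK, v, hvK, huv, ⟨wu, hwu⟩, ⟨wv, hwv⟩⟩ := htwo
      have huz : u ≠ z := by
        rintro rfl
        rw [hFz] at hwu
        cases hwu
      have hvz : v ≠ z := by
        rintro rfl
        rw [hFz] at hwv
        cases hwv
      have hK3 : ∀ x ∈ K, x = z ∨ x = u ∨ x = v := by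
        intro x hx
        by_contra hcon
        push Not at hcon
        obtain ⟨h1, h2, h3⟩ := hcon
        have hsub : ({x, z, u, v} : Finset V) ⊆ K := by
          intro y hy
          simp only [mem_insert, mem_singleton] at hy
          rcases hy with rfl | rfl | rfl | rfl
          · exact hx
          · exact hC.zK
          · exact huK
          · exact hvK
        have h4 := card_le_card hsub
        have h5 : ({x, z, u, v} : Finset V).card = 4 := by
          rw [card_insert_of_notMem, card_insert_of_notMem, card_insert_of_notMem,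
            card_singleton]
          · simp [huv]
          · simp [huz.symm, hvz.symm]
          · simp [h1, h2, h3]
        have h6 := hC.card
        omega
      obtain ⟨bu, wu', hu1, hu2, hu3, -⟩ := hnz u huK huz
      have hbu : bu = b1 := by
        rw [hwu] at hu1
        injection hu1 with e1 e2
        exact e1.symm
      subst hbu
      have hKb : ∀ x ∈ K, InBlob ty io bu (F x) := by
        intro x hx
        rcases hK3 x hx with rfl | rfl | rfl
        · exact hu3
        · exact Or.inl ⟨wu, hwu⟩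
        · exact Or.inl ⟨wv, hwv⟩
      obtain ⟨b, hb, hbu, ⟨j0, hj0⟩, hfar⟩ := far hC.con hF.adj (ρ := u) (ζ := (jz, iz))
        (by rw [hwu]; exact hu2) CB hCB (by
          obtain ⟨y, hy⟩ := hout bu
          have hyK : y ∉ K := fun h => hy (hKb y h)
          obtain ⟨b', hb', hyb⟩ := hcovb y hyK
          refine ⟨b', hb', fun w hw => ?_⟩
          rw [hwu] at hw
          injection hw with e1 e2
          subst e1
          exact hy hyb)
      have hne : bu ≠ b := fun h => hbu wu (by rw [hwu, h])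
      refine far_leaf hF hC.cov hcb hU hb hnot hj0 hfar
        (w0 := xs j0) (Or.inr (hF.xg.adj j0)) (hKv b) (hGv b _) ?_ (h3v b j0)
      intro x hx hxN
      left
      rcases hK3 x hx with rfl | rfl | rfl
      · rw [hFz] at hxN ⊢
        obtain ⟨h1, -⟩ := inBlob_z hxN
        have hjj : jz = j0 := by
          have h2 : Rr io (Us F) b (jz, iz) (jz, io b jz) := by
            rw [← h1]
            exact Relation.ReflTransGen.refl
          exact uniq_dir hF.ioi hF.sp hU h2 hj0
        subst hjj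
        rw [h1]
        exact ⟨_, rfl⟩
      · rw [hwu] at hxN
        exact absurd (inBlob_b hxN) hne
      · rw [hwv] at hxN
        exact absurd (inBlob_b hxN) hne
    · -- at most one slot of `b1` is in the kernel
      push Not at htwo
      have hzj : InBlob ty io b1 (F z) → ∃ x, F z = .z j1 (io b1 j1) x := by
        intro h
        rw [hFz] at h ⊢
        obtain ⟨h1, -⟩ := inBlob_z h
        have hjj : jz = j1 := by
          have h2 : Rr io (Us F) b1 (jz, iz) (jz, io b1 jz) := by
            rw [← h1]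
            exact Relation.ReflTransGen.refl
          exact uniq_dir hF.ioi hF.sp hU h2 hj1
        subst hjj
        rw [h1]
        exact ⟨_, rfl⟩
      obtain ⟨w0, hw0, h1⟩ : ∃ w0, Near H xs ys j1 w0 ∧
          ∀ v ∈ K, v ≠ z → InBlob ty io b1 (F v) → F v = .b b1 w0 := by
        by_cases hs : ∃ u ∈ K, ∃ w, F u = .b b1 w
        · obtain ⟨u, hu, w, hw⟩ := hs
          have huz : u ≠ z := by
            rintro rfl
            rw [hFz] at hw
            cases hw
          obtain ⟨b', w', h1, h2, -, h4⟩ := hnz u hu huz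
          rw [hw] at h1
          injection h1 with e1 e2
          subst e1
          subst e2
          have hjj : jz = j1 := by
            have h5 : Rr io (Us F) b1 (jz, iz) (jz, io b1 jz) := by
              rw [h2]
              exact Relation.ReflTransGen.refl
            exact uniq_dir hF.ioi hF.sp hU h5 hj1
          subst hjj
          refine ⟨w, h4, ?_⟩
          intro v hv hvz hvN
          obtain ⟨b'', w'', h6, -⟩ := hnz v hv hvz
          rw [h6] at hvN
          have := inBlob_b hvN
          subst this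
          by_cases huv : u = v
          · subst huv
            exact hw
          · exact absurd h6 (htwo u hu v hv huv ⟨w, hw⟩ w'')
        · refine ⟨xs j1, Or.inr (hF.xg.adj j1), ?_⟩
          intro v hv hvz hvN
          exfalso
          obtain ⟨b'', w'', h6, -⟩ := hnz v hv hvz
          rw [h6] at hvN
          have := inBlob_b hvN
          subst this
          exact hs ⟨v, hv, w'', h6⟩
      refine far_leaf hF hC.cov hcb hU hb1 hnot hj1 hfar1 hw0 (hKv b1) (hGv b1 _) ?_ (h3v b1 j1)
      intro v hv hvN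
      by_cases hvz : v = z
      · subst hvz
        exact Or.inl (hzj hvN)
      · exact Or.inr (h1 v hv hvz hvN)
  · -- the centre is a complex vertex
    have hnz : ∀ u ∈ K, u = z ∨ (∃ b, F u = .b b wz ∧ io b jz = iz ∧ ty b = φ) ∨
        ∃ c, F u = .g jz iz φ wz c := by
      intro u hu
      rcases hC.star u hu with h | h
      · exact Or.inl h
      · have h2 := hF.adj z u h
        rw [hFz] at h2
        exact Or.inr (nb_cx h2)
    obtain ⟨b, hb, hbz, ⟨j0, hj0⟩, hfar⟩ := far hC.con hF.adj (ρ := z) (ζ := (jz, iz))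
      (by rw [hFz]; exact rfl) CB hCB ⟨b0, hb0, fun w hw => by rw [hFz] at hw; cases hw⟩
    have hjj : io b jz = iz → jz = j0 := by
      intro h
      have h5 : Rr io (Us F) b (jz, iz) (jz, io b jz) := by
        rw [h]
        exact Relation.ReflTransGen.refl
      exact uniq_dir hF.ioi hF.sp hU h5 hj0
    have hzN : ¬ InBlob ty io b (F z) := by
      rw [hFz]
      exact inBlob_g
    obtain ⟨w0, hw0, hwz⟩ : ∃ w0, Near H xs ys j0 w0 ∧ (io b jz = iz → w0 = wz) := by
      by_cases h : io b jz = iz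
      · have := hjj h
        subst this
        exact ⟨wz, hF.near z _ _ _ _ _ hFz, fun _ => rfl⟩
      · exact ⟨xs j0, Or.inr (hF.xg.adj j0), fun h' => absurd h' h⟩
    refine far_leaf hF hC.cov hcb hU hb hnot hj0 hfar hw0 ?_ ?_ ?_ ?_
    · intro u hu b' w' hw' _
      rcases hnz u hu with rfl | ⟨b'', h, h2, -⟩ | ⟨c, h⟩
      · rw [hFz] at hw'
        cases hw'
      · rw [hw'] at h
        injection h with e1 e2
        subst e1
        exact h2
      · rw [hw'] at h
        cases h
    · intro u hu j c w h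
      have h' : ∃ c, F u = .g jz iz φ wz c := by
        rcases hnz u hu with rfl | ⟨b'', h', -⟩ | h'
        · exact ⟨_, hFz⟩
        · rw [h] at h'
          cases h'
        · exact h'
      obtain ⟨c', h'⟩ := h'
      rw [h] at h'
      injection h' with e1 e2 e3 e4 e5
      subst e1
      rw [e4, hwz e2]
    · intro v hv hvN
      right
      rcases hnz v hv with rfl | ⟨b', h, h2, -⟩ | ⟨c, h⟩
      · exact absurd hvN hzN
      · rw [h] at hvN ⊢
        have := inBlob_b hvN
        subst this
        rw [hwz h2]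
      · rw [h] at hvN
        exact (inBlob_g hvN).elim
    · intro _ a w ha hw haw hza hzw
      exfalso
      apply haw
      apply hF.inj
      have key : ∀ y, InBlob ty io b (F y) → M.Adj z y → F y = .b b wz := by
        intro y hy hzy
        have h2 := hF.adj z y hzy
        rw [hFz] at h2
        rcases nb_cx h2 with ⟨b', h, -⟩ | ⟨c', h⟩
        · rw [h] at hy ⊢
          rw [inBlob_b hy]
        · rw [h] at hy
          exact (inBlob_g hy).elim
      rw [key a ha hza, key w hw hzw]

/-- Row R5 in the form of 4844. -/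
theorem leafE2_statement : LeafE2Statement := by
  intro n p H V _ _ M K z AA _ _ hC hcard s xs ys Bl J C ty io R A F hF hnot
  obtain ⟨N, pos, Pi, h1, h2, -⟩ := leafE2 hC hcard hF hnot
  exact ⟨N, pos, Pi, h1, h2⟩

end MP3240L45
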