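import Pool.Agent.Lib.MP_3240be_co.CO.Base
import Pool.Agent.Lib.MP_3240be_co.H19K.For

/-!
# MP_3240be_co, T4 by rigid types (finding 4835), row R5: a far blob of an (E2) embedding

`M` is a connected graph, `F` maps its vertices to slots, passengers and complexes of a gadget.
Seen from a vertex `ρ`, some blob with the property `CB` has all other such blobs in one direction,
namely in the direction of `ρ`.
-/

set_option autoImplicit false

namespace MP3240L45

open Finset Function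
open MP3240X (VQ cq bz)
open MP3240CO (XG)
open Pool.Agent.Lib.MP_3240be_co.H36.Chrom (Sparse)

section
variable {n s : ℕ} {H : SimpleGraph (Fin n)} {Bl J C V : Type}

/-- The passenger sets `Z` and `Z'` are joined by a blob of `U` different from `b`. -/
def Lkb (io : Bl → Fin s → J) (U : Finset Bl) (b : Bl) (Z Z' : Fin s × J) : Prop :=
  ∃ b' ∈ U, b' ≠ b ∧ io b' Z.1 = Z.2 ∧ io b' Z'.1 = Z'.2

/-- `Z` is connected to `ζ` by blobs different from `b`. -/
def Rr (io : Bl → Fin s → J) (U : Finset Bl) (b : Bl) (ζ Z : Fin s × J) : Prop :=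
  Relation.ReflTransGen (Lkb io U b) ζ Z

theorem Lkb.symm {io : Bl → Fin s → J} {U : Finset Bl} {b : Bl} {Z Z' : Fin s × J}
    (h : Lkb io U b Z Z') : Lkb io U b Z' Z := by
  obtain ⟨b', h1, h2, h3, h4⟩ := h
  exact ⟨b', h1, h2, h4, h3⟩

theorem rtg_symm {io : Bl → Fin s → J} {U : Finset Bl} {b : Bl} {Z Z' : Fin s × J}
    (h : Relation.ReflTransGen (Lkb io U b) Z Z') :
    Relation.ReflTransGen (Lkb io U b) Z' Z := by
  induction h with
  | refl => exact Relation.ReflTransGen.refl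
  | tail _ h2 ih => exact Relation.ReflTransGen.head h2.symm ih

/-- Two passenger sets of one blob are not connected by other blobs. -/
theorem uniq_dir {g : ℕ} {io : Bl → Fin s → J} (hio : ∀ b, Injective (io b))
    (hs : Sparse g io) {U : Finset Bl} (hU : U.card + 1 ≤ g) {b : Bl} {ζ : Fin s × J}
    {j j' : Fin s} (h : Rr io U b ζ (j, io b j)) (h' : Rr io U b ζ (j', io b j')) : j = j' := by
  classical
  by_contra hne
  have h1 : Relation.ReflTransGen (Lkb io U b) (j, io b j) (j', io b j') :=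
    (rtg_symm h).trans h'
  have h2 := MP3240K.forest_of_sparse (MP3240K.sparse_partite hs hio)
    (fun b j j' h => congrArg Prod.fst h) _ (U.erase b) rfl b (Finset.notMem_erase b U)
    (by have := Finset.card_erase_le (s := U) (a := b); omega) j j' hne
  apply h2
  refine Relation.ReflTransGen.mono ?_ _ _ h1
  rintro ⟨z1, z2⟩ ⟨z1', z2'⟩ ⟨b', hb', hne', h3, h4⟩
  refine ⟨b', Finset.mem_erase.2 ⟨hne', hb'⟩, ⟨z1, ?_⟩, ⟨z1', ?_⟩⟩
  · exact Prod.ext rfl h3
  · exact Prod.ext rfl h4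

open Classical in
/-- The used blobs. -/
noncomputable def Us [Fintype V] (F : V → VQ H s Bl J C) : Finset Bl :=
  univ.biUnion (fun u => match F u with
    | .b b _ => {b}
    | _ => ∅)

theorem mem_Us [Fintype V] {F : V → VQ H s Bl J C} {u : V} {b : Bl} {w : Fin n}
    (h : F u = .b b w) : b ∈ Us F := by
  classical
  unfold Us
  rw [mem_biUnion]
  refine ⟨u, mem_univ _, ?_⟩
  rw [h]
  simp

theorem card_Us [Fintype V] (F : V → VQ H s Bl J C) : (Us F).card ≤ Fintype.card V := by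
  classical
  unfold Us
  refine card_biUnion_le.trans ((sum_le_card_nsmul _ _ 1 ?_).trans (by simp))
  intro u _
  rcases F u with _ | _ | _ <;> simp

/-- The vertex `x` is at the passenger set `Z`. -/
def Nr (io : Bl → Fin s → J) (x : VQ H s Bl J C) (Z : Fin s × J) : Prop :=
  match x with
  | .b b _ => io b Z.1 = Z.2
  | .z j i _ => Z = (j, i)
  | .g j i _ _ _ => Z = (j, i)

/-- The vertex `x` is on the side of `ζ` with respect to `b`. -/
def Sd (io : Bl → Fin s → J) (U : Finset Bl) (b : Bl) (ζ : Fin s × J) (x : VQ H s Bl J C) : Prop :=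
  (∀ w, x ≠ .b b w) ∧ ∃ Z, Nr io x Z ∧ Rr io U b ζ Z

theorem conn_exit {M : SimpleGraph V} (hM : M.Connected) (T : V → Prop) {x y : V} (hx : T x)
    (hy : ¬ T y) : ∃ u v, T u ∧ ¬ T v ∧ M.Adj u v := by
  by_contra hcon
  push Not at hcon
  have key : ∀ u v (p : M.Walk u v), T u → T v := by
    intro u v p
    induction p with
    | nil => exact fun h => h
    | @cons a b c hab _ ih =>
      intro ha
      by_cases hb : T b
      · exact ih hb
      · exact absurd hab (hcon a b ha hb)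
  obtain ⟨p⟩ := hM.preconnected x y
  exact hy (key x y p hx)

variable {xs ys : Fin s → Fin n} {ty : Bl → Fin s → H.Dart} {io : Bl → Fin s → J}
  {R : C → C → Prop} {A : C → Prop}

/-- The sides are left only through the slots of `b`. -/
theorem sd_closed [Fintype V] {F : V → VQ H s Bl J C} {b : Bl} {ζ : Fin s × J} {u v : V}
    (hu : Sd io (Us F) b ζ (F u)) (hadj : cq xs ys ty io R A (F u) (F v))
    (hv : ¬ Sd io (Us F) b ζ (F v)) :
    (∃ w, F v = .b b w) ∧ ∃ j, Rr io (Us F) b ζ (j, io b j) := by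
  obtain ⟨hub, Z, hZ, hR⟩ := hu
  rcases hFu : F u with ⟨b1, w1⟩ | ⟨j1, i1, v1⟩ | ⟨j1, i1, φ1, w1, c1⟩ <;>
    rcases hFv : F v with ⟨b2, w2⟩ | ⟨j2, i2, v2⟩ | ⟨j2, i2, φ2, w2, c2⟩ <;>
    rw [hFu, hFv] at hadj <;> rw [hFu] at hZ hub <;> rw [hFv] at hv
  · -- slot, slot
    exfalso
    obtain ⟨rfl, -⟩ : b1 = b2 ∧ H.Adj w1 w2 := hadj
    exact hv ⟨fun w hw => hub w1 (by injection hw with h1 h2; rw [h1]), Z, hZ, hR⟩
  · -- slot, passenger
    exfalso
    obtain ⟨h1, -⟩ : bz xs ys ty io b1 w1 j2 i2 v2 := hadj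
    refine hv ⟨fun w hw => by injection hw, (j2, i2), rfl, ?_⟩
    have hne : b1 ≠ b := fun h => hub w1 (by rw [h])
    exact Relation.ReflTransGen.tail hR ⟨b1, mem_Us hFu, hne, hZ, h1⟩
  · -- slot, complex
    exfalso
    obtain ⟨h1, -⟩ : io b1 j2 = i2 ∧ ty b1 = φ2 ∧ w1 = w2 ∧ A c2 := hadj
    refine hv ⟨fun w hw => by injection hw, (j2, i2), rfl, ?_⟩
    have hne : b1 ≠ b := fun h => hub w1 (by rw [h])
    exact Relation.ReflTransGen.tail hR ⟨b1, mem_Us hFu, hne, hZ, h1⟩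
  · -- passenger, slot
    obtain ⟨h1, -⟩ : bz xs ys ty io b2 w2 j1 i1 v1 := hadj
    have hZ' : Z = (j1, i1) := hZ
    by_cases hb : b2 = b
    · subst hb
      refine ⟨⟨w2, rfl⟩, j1, ?_⟩
      rw [h1, ← hZ']
      exact hR
    · exfalso
      refine hv ⟨fun w hw => hb (by injection hw), (j1, i1), h1, ?_⟩
      rw [← hZ']
      exact hR
  · exact hadj.elim
  · exact hadj.elim
  · -- complex, slot
    obtain ⟨h1, -⟩ : io b2 j1 = i1 ∧ ty b2 = φ1 ∧ w2 = w1 ∧ A c1 := hadj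
    have hZ' : Z = (j1, i1) := hZ
    by_cases hb : b2 = b
    · subst hb
      refine ⟨⟨w2, rfl⟩, j1, ?_⟩
      rw [h1, ← hZ']
      exact hR
    · exfalso
      refine hv ⟨fun w hw => hb (by injection hw), (j1, i1), h1, ?_⟩
      rw [← hZ']
      exact hR
  · exact hadj.elim
  · -- complex, complex
    exfalso
    obtain ⟨⟨h1, h2, -⟩, -⟩ : (j1 = j2 ∧ i1 = i2 ∧ φ1 = φ2 ∧ w1 = w2) ∧ R c1 c2 := hadj
    refine hv ⟨fun w hw => by injection hw, (j2, i2), rfl, ?_⟩
    have hZ' : Z = (j1, i1) := hZ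
    rw [← h1, ← h2, ← hZ']
    exact hR

/-- A blob different from that of `ρ` is connected to `ζ`. -/
theorem touch [Fintype V] {M : SimpleGraph V} (hM : M.Connected) {F : V → VQ H s Bl J C}
    (hadj : ∀ u v, M.Adj u v → cq xs ys ty io R A (F u) (F v)) {ρ : V} {ζ : Fin s × J}
    (hρ : Nr io (F ρ) ζ) {b : Bl} (hb : ∃ u w, F u = .b b w) (hρb : ∀ w, F ρ ≠ .b b w) :
    ∃ j, Rr io (Us F) b ζ (j, io b j) := by
  obtain ⟨u, w, hu⟩ := hb
  obtain ⟨x, y, hx, hy, hxy⟩ := conn_exit hM (fun v => Sd io (Us F) b ζ (F v))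
    (x := ρ) (y := u) ⟨hρb, ζ, hρ, Relation.ReflTransGen.refl⟩ (fun h => h.1 w hu)
  exact (sd_closed hx (hadj x y hxy) hy).2

/-- The far blob. -/
theorem far [Fintype V] {M : SimpleGraph V} (hM : M.Connected) {F : V → VQ H s Bl J C}
    (hadj : ∀ u v, M.Adj u v → cq xs ys ty io R A (F u) (F v)) {ρ : V} {ζ : Fin s × J}
    (hρ : Nr io (F ρ) ζ) (CB : Bl → Prop) (hCB : ∀ b, CB b → ∃ u w, F u = .b b w)
    (hex : ∃ b, CB b ∧ ∀ w, F ρ ≠ .b b w) :
    ∃ b, CB b ∧ (∀ w, F ρ ≠ .b b w) ∧ (∃ j, Rr io (Us F) b ζ (j, io b j)) ∧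
      ∀ b', CB b' → b' ≠ b → ∀ j, Rr io (Us F) b ζ (j, io b' j) := by
  classical
  set S : Bl → Finset Bl := fun b => (Us F).filter
    (fun b' => CB b' ∧ b' ≠ b ∧ ¬ ∃ j, Rr io (Us F) b ζ (j, io b' j)) with hS
  obtain ⟨b0, hb0, hb0'⟩ := hex
  obtain ⟨u0, w0, hu0⟩ := hCB b0 hb0
  obtain ⟨b, hb, hmin⟩ := Finset.exists_min_image
    ((Us F).filter (fun b => CB b ∧ ∀ w, F ρ ≠ .b b w)) (fun b => (S b).card)
    ⟨b0, mem_filter.2 ⟨mem_Us hu0, hb0, hb0'⟩⟩
  obtain ⟨hbU, hbC, hbρ⟩ := mem_filter.1 hb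
  have htouch := touch hM hadj hρ (hCB b hbC) hbρ
  have hempty : S b = ∅ := by
    by_contra hne
    obtain ⟨b', hb'⟩ := Finset.nonempty_iff_ne_empty.2 hne
    obtain ⟨hb'U, hb'C, hb'b, hb'R⟩ := mem_filter.1 hb'
    -- the root is not in b'
    have hb'ρ : ∀ w, F ρ ≠ .b b' w := by
      intro w hw
      apply hb'R
      refine ⟨ζ.1, ?_⟩
      have h1 : io b' ζ.1 = ζ.2 := by
        have h2 := hρ
        rw [hw] at h2
        exact h2
      rw [h1]
      exact Relation.ReflTransGen.refl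
    have hA : ∀ Z, Rr io (Us F) b ζ Z → Rr io (Us F) b' ζ Z := by
      intro Z hZ
      induction hZ with
      | refl => exact Relation.ReflTransGen.refl
      | @tail Z1 Z2 h1 h2 ih =>
        obtain ⟨b'', h3, h4, h5, h6⟩ := h2
        refine Relation.ReflTransGen.tail ih ⟨b'', h3, ?_, h5, h6⟩
        rintro rfl
        apply hb'R
        refine ⟨Z1.1, ?_⟩
        rw [h5]
        exact h1
    have hlt : (S b').card < (S b).card := by
      apply Finset.card_lt_card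
      refine ⟨?_, ?_⟩
      · intro b'' hb''
        obtain ⟨h1, h2, h3, h4⟩ := mem_filter.1 hb''
        refine mem_filter.2 ⟨h1, h2, ?_, ?_⟩
        · rintro rfl
          apply h4
          obtain ⟨j, hj⟩ := htouch
          exact ⟨j, hA _ hj⟩
        · rintro ⟨j, hj⟩
          exact h4 ⟨j, hA _ hj⟩
      · intro hsub
        have := hsub hb'
        exact (mem_filter.1 this).2.2.1 rfl
    have := hmin b' (mem_filter.2 ⟨hb'U, hb'C, hb'ρ⟩)
    omega
  refine ⟨b, hbC, hbρ, htouch, ?_⟩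
  intro b' hb'C hb'b j
  obtain ⟨u', w', hu'⟩ := hCB b' hb'C
  have h1 : b' ∉ S b := by rw [hempty]; exact Finset.notMem_empty _
  have h2 : ∃ j, Rr io (Us F) b ζ (j, io b' j) := by
    by_contra h3
    exact h1 (mem_filter.2 ⟨mem_Us hu', hb'C, hb'b, h3⟩)
  obtain ⟨j', hj'⟩ := h2
  exact Relation.ReflTransGen.tail hj' ⟨b', mem_Us hu', hb'b, rfl, rfl⟩

end

end MP3240L45
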